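import Mathlib

namespace Pool.Agent.H856Z.Word

open Matrix

variable {R : Type*} [CommRing R]

/-- Element of the span of `1, A, B, AB`. -/
def E (A B : Matrix (Fin 2) (Fin 2) R) (a b c d : R) : Matrix (Fin 2) (Fin 2) R :=
  a • (1 : Matrix (Fin 2) (Fin 2) R) + b • A + c • B + d • (A * B)

theorem stepA {A B X : Matrix (Fin 2) (Fin 2) R} {s z : R} (hA : A * A = s • A - 1)
    (hBA : B * A = (z - s * s) • (1 : Matrix (Fin 2) (Fin 2) R) + s • A + s • B - A * B)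
    {a b c d : R} (h : X = E A B a b c d) {a' b' c' d' : R}
    (ha : a' = -b + c * (z - s * s) - d * s) (hb : b' = a + b * s + c * s + d * z)
    (hc : c' = c * s + d) (hd : d' = -c) : X * A = E A B a' b' c' d' := by
  subst h ha hb hc hd
  have h1 : A * B * A = (z - s * s) • A + s • (s • A - 1) + s • (A * B) - (s • (A * B) - B) := by
    rw [mul_assoc, hBA, mul_sub, mul_add, mul_add, mul_smul_comm, mul_smul_comm, mul_smul_comm,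
      mul_one, hA, ← mul_assoc, hA, sub_mul, smul_mul_assoc, one_mul]
  simp only [E, add_mul, smul_mul_assoc, one_mul, hA, h1]
  rw [hBA]
  module

theorem stepB {A B B' X : Matrix (Fin 2) (Fin 2) R} {s : R} (hB : B * B = s • B - 1)
    (hB' : B' = s • (1 : Matrix (Fin 2) (Fin 2) R) - B)
    {a b c d : R} (h : X = E A B a b c d) {a' b' c' d' : R}
    (ha : a' = a * s + c) (hb : b' = b * s + d)
    (hc : c' = -a) (hd : d' = -b) : X * B' = E A B a' b' c' d' := by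
  subst h ha hb hc hd hB'
  have h1 : A * B * B = s • (A * B) - A := by
    rw [mul_assoc, hB, mul_sub, mul_smul_comm, mul_one]
  simp only [E, add_mul, mul_sub, smul_mul_assoc, mul_smul_comm, mul_one, one_mul, hB, h1]
  module

theorem trace_E (A B : Matrix (Fin 2) (Fin 2) R) (a b c d : R) :
    (E A B a b c d).trace = 2 * a + b * A.trace + c * B.trace + d * (A * B).trace := by
  simp [E, mul_comm]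

theorem cayley (A : Matrix (Fin 2) (Fin 2) R) (h : A.det = 1) : A * A = A.trace • A - 1 := by
  rw [Matrix.det_fin_two] at h
  ext i j
  fin_cases i <;> fin_cases j <;> simp [Matrix.mul_apply, Fin.sum_univ_two, Matrix.trace_fin_two]
  · linear_combination (-1 : R) * h
  · ring
  · ring
  · linear_combination (-1 : R) * h

theorem polar (A B : Matrix (Fin 2) (Fin 2) R) :
    B * A = ((A * B).trace - A.trace * B.trace) • (1 : Matrix (Fin 2) (Fin 2) R) + B.trace • A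
      + A.trace • B - A * B := by
  ext i j
  fin_cases i <;> fin_cases j <;>
    simp [Matrix.mul_apply, Fin.sum_univ_two, Matrix.trace_fin_two] <;> ring

/-- The trace identity in characteristic two. -/
theorem trace_word (htwo : (2 : R) = 0) {A B B' : Matrix (Fin 2) (Fin 2) R} (dA : A.det = 1)
    (dB : B.det = 1) (ht : B.trace = A.trace) (hBB : B * B' = 1) :
    ∃ f : R, (1 * A * A * A * A * A * A * B' * B' * A * A * B' * B' * B' * A * B').trace = f ^ 3 + f := by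
  obtain ⟨s, hs⟩ : ∃ s, A.trace = s := ⟨_, rfl⟩
  obtain ⟨z, hz⟩ : ∃ z, (A * B).trace = z := ⟨_, rfl⟩
  have hA := cayley A dA
  have hB := cayley B dB
  have hBA := polar A B
  rw [ht] at hB hBA
  rw [hs] at hA hB hBA ht
  rw [hz] at hBA
  have hB' : B' = s • (1 : Matrix (Fin 2) (Fin 2) R) - B := by
    have e : (s • (1 : Matrix (Fin 2) (Fin 2) R) - B) * B = 1 := by
      rw [sub_mul, smul_mul_assoc, one_mul, hB]; abel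
    calc B' = ((s • (1 : Matrix (Fin 2) (Fin 2) R) - B) * B) * B' := by rw [e, one_mul]
      _ = _ := by rw [mul_assoc, hBB, mul_one]
  have h0 : (1 : Matrix (Fin 2) (Fin 2) R) = E A B 1 0 0 0 := by simp [E]
  have h1 := stepA hA hBA h0 (a' := 0) (b' := (1)*s^0*z^0) (c' := 0) (d' := 0)
    (by ring) (by ring) (by ring) (by ring)
  have h2 := stepA hA hBA h1 (a' := (-1)*s^0*z^0) (b' := (1)*s^1*z^0) (c' := 0) (d' := 0)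
    (by ring) (by ring) (by ring) (by ring)
  have h3 := stepA hA hBA h2 (a' := (-1)*s^1*z^0) (b' := (1)*s^2*z^0 + (-1)*s^0*z^0) (c' := 0) (d' := 0)
    (by ring) (by ring) (by ring) (by ring)
  have h4 := stepA hA hBA h3 (a' := (-1)*s^2*z^0 + (1)*s^0*z^0) (b' := (1)*s^3*z^0 + (-2)*s^1*z^0) (c' := 0) (d' := 0)
    (by ring) (by ring) (by ring) (by ring)
  have h5 := stepA hA hBA h4 (a' := (-1)*s^3*z^0 + (2)*s^1*z^0) (b' := (1)*s^4*z^0 + (-3)*s^2*z^0 + (1)*s^0*z^0) (c' := 0) (d' := 0)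
    (by ring) (by ring) (by ring) (by ring)
  have h6 := stepA hA hBA h5 (a' := (-1)*s^4*z^0 + (3)*s^2*z^0 + (-1)*s^0*z^0) (b' := (1)*s^5*z^0 + (-4)*s^3*z^0 + (3)*s^1*z^0) (c' := 0) (d' := 0)
    (by ring) (by ring) (by ring) (by ring)
  have h7 := stepB hB hB' h6 (a' := (-1)*s^5*z^0 + (3)*s^3*z^0 + (-1)*s^1*z^0) (b' := (1)*s^6*z^0 + (-4)*s^4*z^0 + (3)*s^2*z^0) (c' := (1)*s^4*z^0 + (-3)*s^2*z^0 + (1)*s^0*z^0) (d' := (-1)*s^5*z^0 + (4)*s^3*z^0 + (-3)*s^1*z^0)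
    (by ring) (by ring) (by ring) (by ring)
  have h8 := stepB hB hB' h7 (a' := (-1)*s^6*z^0 + (4)*s^4*z^0 + (-4)*s^2*z^0 + (1)*s^0*z^0) (b' := (1)*s^7*z^0 + (-5)*s^5*z^0 + (7)*s^3*z^0 + (-3)*s^1*z^0) (c' := (1)*s^5*z^0 + (-3)*s^3*z^0 + (1)*s^1*z^0) (d' := (-1)*s^6*z^0 + (4)*s^4*z^0 + (-3)*s^2*z^0)
    (by ring) (by ring) (by ring) (by ring)
  have h9 := stepA hA hBA h8 (a' := (-1)*s^7*z^0 + (1)*s^5*z^1 + (4)*s^5*z^0 + (-3)*s^3*z^1 + (-5)*s^3*z^0 + (1)*s^1*z^1 + (3)*s^1*z^0) (b' := (1)*s^8*z^0 + (-1)*s^6*z^1 + (-5)*s^6*z^0 + (4)*s^4*z^1 + (8)*s^4*z^0 + (-3)*s^2*z^1 + (-6)*s^2*z^0 + (1)*s^0*z^0) (c' := (1)*s^4*z^0 + (-2)*s^2*z^0) (d' := (-1)*s^5*z^0 + (3)*s^3*z^0 + (-1)*s^1*z^0)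
    (by ring) (by ring) (by ring) (by ring)
  have h10 := stepA hA hBA h9 (a' := (-1)*s^8*z^0 + (1)*s^6*z^1 + (5)*s^6*z^0 + (-3)*s^4*z^1 + (-9)*s^4*z^0 + (1)*s^2*z^1 + (7)*s^2*z^0 + (-1)*s^0*z^0) (b' := (1)*s^9*z^0 + (-1)*s^7*z^1 + (-6)*s^7*z^0 + (4)*s^5*z^1 + (13)*s^5*z^0 + (-3)*s^3*z^1 + (-13)*s^3*z^0 + (4)*s^1*z^0) (c' := (1)*s^3*z^0 + (-1)*s^1*z^0) (d' := (-1)*s^4*z^0 + (2)*s^2*z^0)
    (by ring) (by ring) (by ring) (by ring)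
  have h11 := stepB hB hB' h10 (a' := (-1)*s^9*z^0 + (1)*s^7*z^1 + (5)*s^7*z^0 + (-3)*s^5*z^1 + (-9)*s^5*z^0 + (1)*s^3*z^1 + (8)*s^3*z^0 + (-2)*s^1*z^0) (b' := (1)*s^10*z^0 + (-1)*s^8*z^1 + (-6)*s^8*z^0 + (4)*s^6*z^1 + (13)*s^6*z^0 + (-3)*s^4*z^1 + (-14)*s^4*z^0 + (6)*s^2*z^0) (c' := (1)*s^8*z^0 + (-1)*s^6*z^1 + (-5)*s^6*z^0 + (3)*s^4*z^1 + (9)*s^4*z^0 + (-1)*s^2*z^1 + (-7)*s^2*z^0 + (1)*s^0*z^0) (d' := (-1)*s^9*z^0 + (1)*s^7*z^1 + (6)*s^7*z^0 + (-4)*s^5*z^1 + (-13)*s^5*z^0 + (3)*s^3*z^1 + (13)*s^3*z^0 + (-4)*s^1*z^0)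
    (by ring) (by ring) (by ring) (by ring)
  have h12 := stepB hB hB' h11 (a' := (-1)*s^10*z^0 + (1)*s^8*z^1 + (6)*s^8*z^0 + (-4)*s^6*z^1 + (-14)*s^6*z^0 + (4)*s^4*z^1 + (17)*s^4*z^0 + (-1)*s^2*z^1 + (-9)*s^2*z^0 + (1)*s^0*z^0) (b' := (1)*s^11*z^0 + (-1)*s^9*z^1 + (-7)*s^9*z^0 + (5)*s^7*z^1 + (19)*s^7*z^0 + (-7)*s^5*z^1 + (-27)*s^5*z^0 + (3)*s^3*z^1 + (19)*s^3*z^0 + (-4)*s^1*z^0) (c' := (1)*s^9*z^0 + (-1)*s^7*z^1 + (-5)*s^7*z^0 + (3)*s^5*z^1 + (9)*s^5*z^0 + (-1)*s^3*z^1 + (-8)*s^3*z^0 + (2)*s^1*z^0) (d' := (-1)*s^10*z^0 + (1)*s^8*z^1 + (6)*s^8*z^0 + (-4)*s^6*z^1 + (-13)*s^6*z^0 + (3)*s^4*z^1 + (14)*s^4*z^0 + (-6)*s^2*z^0)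
    (by ring) (by ring) (by ring) (by ring)
  have h13 := stepB hB hB' h12 (a' := (-1)*s^11*z^0 + (1)*s^9*z^1 + (7)*s^9*z^0 + (-5)*s^7*z^1 + (-19)*s^7*z^0 + (7)*s^5*z^1 + (26)*s^5*z^0 + (-2)*s^3*z^1 + (-17)*s^3*z^0 + (3)*s^1*z^0) (b' := (1)*s^12*z^0 + (-1)*s^10*z^1 + (-8)*s^10*z^0 + (6)*s^8*z^1 + (25)*s^8*z^0 + (-11)*s^6*z^1 + (-40)*s^6*z^0 + (6)*s^4*z^1 + (33)*s^4*z^0 + (-10)*s^2*z^0) (c' := (1)*s^10*z^0 + (-1)*s^8*z^1 + (-6)*s^8*z^0 + (4)*s^6*z^1 + (14)*s^6*z^0 + (-4)*s^4*z^1 + (-17)*s^4*z^0 + (1)*s^2*z^1 + (9)*s^2*z^0 + (-1)*s^0*z^0) (d' := (-1)*s^11*z^0 + (1)*s^9*z^1 + (7)*s^9*z^0 + (-5)*s^7*z^1 + (-19)*s^7*z^0 + (7)*s^5*z^1 + (27)*s^5*z^0 + (-3)*s^3*z^1 + (-19)*s^3*z^0 + (4)*s^1*z^0)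
    (by ring) (by ring) (by ring) (by ring)
  have h14 := stepA hA hBA h13 (a' := (-1)*s^12*z^0 + (2)*s^10*z^1 + (7)*s^10*z^0 + (-1)*s^8*z^2 + (-11)*s^8*z^1 + (-20)*s^8*z^0 + (4)*s^6*z^2 + (22)*s^6*z^1 + (30)*s^6*z^0 + (-4)*s^4*z^2 + (-21)*s^4*z^1 + (-23)*s^4*z^0 + (1)*s^2*z^2 + (9)*s^2*z^1 + (7)*s^2*z^0 + (-1)*s^0*z^1) (b' := (1)*s^13*z^0 + (-2)*s^11*z^1 + (-8)*s^11*z^0 + (1)*s^9*z^2 + (13)*s^9*z^1 + (26)*s^9*z^0 + (-5)*s^7*z^2 + (-31)*s^7*z^1 + (-45)*s^7*z^0 + (7)*s^5*z^2 + (36)*s^5*z^1 + (42)*s^5*z^0 + (-3)*s^3*z^2 + (-20)*s^3*z^1 + (-18)*s^3*z^0 + (4)*s^1*z^1 + (2)*s^1*z^0) (c' := (1)*s^9*z^0 + (-1)*s^7*z^1 + (-5)*s^7*z^0 + (3)*s^5*z^1 + (10)*s^5*z^0 + (-2)*s^3*z^1 + (-10)*s^3*z^0 + (3)*s^1*z^0) (d' := (-1)*s^10*z^0 + (1)*s^8*z^1 + (6)*s^8*z^0 + (-4)*s^6*z^1 + (-14)*s^6*z^0 + (4)*s^4*z^1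 + (17)*s^4*z^0 + (-1)*s^2*z^1 + (-9)*s^2*z^0 + (1)*s^0*z^0)
    (by ring) (by ring) (by ring) (by ring)
  have h15 := stepB hB hB' h14 (a' := (-1)*s^13*z^0 + (2)*s^11*z^1 + (7)*s^11*z^0 + (-1)*s^9*z^2 + (-11)*s^9*z^1 + (-19)*s^9*z^0 + (4)*s^7*z^2 + (21)*s^7*z^1 + (25)*s^7*z^0 + (-4)*s^5*z^2 + (-18)*s^5*z^1 + (-13)*s^5*z^0 + (1)*s^3*z^2 + (7)*s^3*z^1 + (-3)*s^3*z^0 + (-1)*s^1*z^1 + (3)*s^1*z^0) (b' := (1)*s^14*z^0 + (-2)*s^12*z^1 + (-8)*s^12*z^0 + (1)*s^10*z^2 + (13)*s^10*z^1 + (25)*s^10*z^0 + (-5)*s^8*z^2 + (-30)*s^8*z^1 + (-39)*s^8*z^0 + (7)*s^6*z^2 + (32)*s^6*z^1 + (28)*s^6*z^0 + (-3)*s^4*z^2 + (-16)*s^4*z^1 + (-1)*s^4*z^0 + (3)*s^2*z^1 + (-7)*s^2*z^0 + (1)*s^0*z^0) (c' := (1)*s^12*z^0 + (-2)*s^10*z^1 + (-7)*s^10*z^0 + (1)*s^8*z^2 + (11)*s^8*z^1 + (20)*s^8*z^0 + (-4)*s^6*z^2 + (-22)*s^6*z^1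 + (-30)*s^6*z^0 + (4)*s^4*z^2 + (21)*s^4*z^1 + (23)*s^4*z^0 + (-1)*s^2*z^2 + (-9)*s^2*z^1 + (-7)*s^2*z^0 + (1)*s^0*z^1) (d' := (-1)*s^13*z^0 + (2)*s^11*z^1 + (8)*s^11*z^0 + (-1)*s^9*z^2 + (-13)*s^9*z^1 + (-26)*s^9*z^0 + (5)*s^7*z^2 + (31)*s^7*z^1 + (45)*s^7*z^0 + (-7)*s^5*z^2 + (-36)*s^5*z^1 + (-42)*s^5*z^0 + (3)*s^3*z^2 + (20)*s^3*z^1 + (18)*s^3*z^0 + (-4)*s^1*z^1 + (-2)*s^1*z^0)
    (by ring) (by ring) (by ring) (by ring)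
  refine ⟨s + (s ^ 3 + s) * (s ^ 2 + z), ?_⟩
  rw [h15, trace_E, hs, ht, hz]
  linear_combination ((-3)*s^13*z^1 + (-6)*s^13*z^0 + (7)*s^11*z^1 + (13)*s^11*z^0 + (-1)*s^9*z^3 + (-14)*s^9*z^2 + (-41)*s^9*z^1 + (-32)*s^9*z^0 + (1)*s^7*z^3 + (15)*s^7*z^2 + (41)*s^7*z^1 + (21)*s^7*z^0 + (-5)*s^5*z^3 + (-26)*s^5*z^2 + (-41)*s^5*z^1 + (-4)*s^5*z^0 + (1)*s^3*z^3 + (9)*s^3*z^2 + (11)*s^3*z^1 + (-11)*s^3*z^0 + (-2)*s^1*z^2 + (-2)*s^1*z^1 + (3)*s^1*z^0) * htwo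

end Pool.Agent.H856Z.Word
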