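import Mathlib

namespace Pool.Agent.H856Z.Word

/-- The word map of `w ∈ F₂ = ⟨x, y⟩` on a group `G`: `(g, h) ↦ w(g, h)`, the image of `w` under the
homomorphism `F₂ → G` sending the first generator to `g` and the second to `h`. -/
def wordMap (w : FreeGroup (Fin 2)) (G : Type) [Group G] : G × G → G :=
  fun p => FreeGroup.lift ![p.1, p.2] w

/-- `w` is a proper power: `w = v ^ k` for some `v` and some integer `k ≥ 2`. -/
def IsProperPower (w : FreeGroup (Fin 2)) : Prop :=
  ∃ (v : FreeGroup (Fin 2)) (k : ℕ), 2 ≤ k ∧ w = v ^ k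

end Pool.Agent.H856Z.Word
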