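import Pool.Agent.H856Z.Word
import Pool.Agent.H856Z.WordDefs

namespace Pool.Agent.H856Z.Word

open Matrix MatrixGroups

/-- The word `x^6 y x^{-2} y^{-1} x^2 y x^{-3} y^{-1} x y x^{-1} y^{-1}`. -/
def w0 : FreeGroup (Fin 2) :=
  FreeGroup.mk [(0, true), (0, true), (0, true), (0, true), (0, true), (0, true), (1, true),
    (0, false), (0, false), (1, false), (0, true), (0, true), (1, true), (0, false), (0, false),
    (0, false), (1, false), (0, true), (1, true), (0, false), (1, false)]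

theorem norm_w0 : FreeGroup.norm w0 = 21 := by decide

theorem lift_w0 {G : Type*} [Group G] (g h : G) :
    FreeGroup.lift ![g, h] w0 =
      1 * g * g * g * g * g * g * (h * g * h⁻¹)⁻¹ * (h * g * h⁻¹)⁻¹ * g * g * (h * g * h⁻¹)⁻¹ *
        (h * g * h⁻¹)⁻¹ * (h * g * h⁻¹)⁻¹ * g * (h * g * h⁻¹)⁻¹ := by
  simp [w0, FreeGroup.lift_mk]
  group

theorem not_power : ¬ IsProperPower w0 := by
  rintro ⟨v, k, hk, hv⟩
  have h1 := congrArg
    (FreeGroup.lift ![(Multiplicative.ofAdd (1 : ℤ)), (1 : Multiplicative ℤ)]) hv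
  rw [lift_w0, map_pow] at h1
  have h2 := congrArg Multiplicative.toAdd h1
  simp only [toAdd_mul, toAdd_one, toAdd_inv, toAdd_ofAdd, toAdd_pow, nsmul_eq_mul] at h2
  have h3 : (k : ℤ) ∣ 3 := ⟨_, by rw [← h2]; norm_num⟩
  have h4 : k ∣ 3 := by exact_mod_cast h3
  have h5 : k = 3 := by
    have := Nat.le_of_dvd (by norm_num) h4
    interval_cases k
    · exact absurd h4 (by decide)
    · rfl
  subst h5
  have h6 := congrArg (FreeGroup.lift
    ![(Equiv.swap 0 1 * Equiv.swap 2 3 * Equiv.swap 3 4 : Equiv.Perm (Fin 5)),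
      (Equiv.swap 0 2 * Equiv.swap 1 3 : Equiv.Perm (Fin 5))]) hv
  rw [map_pow] at h6
  have hc6 : (FreeGroup.lift
    ![(Equiv.swap 0 1 * Equiv.swap 2 3 * Equiv.swap 3 4 : Equiv.Perm (Fin 5)),
      (Equiv.swap 0 2 * Equiv.swap 1 3 : Equiv.Perm (Fin 5))] w0) ^ 6 = 1 := by
    rw [lift_w0]; decide +kernel
  have hc4 : (FreeGroup.lift
    ![(Equiv.swap 0 1 * Equiv.swap 2 3 * Equiv.swap 3 4 : Equiv.Perm (Fin 5)),
      (Equiv.swap 0 2 * Equiv.swap 1 3 : Equiv.Perm (Fin 5))] w0) ^ 4 ≠ 1 := by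
    rw [lift_w0]; decide +kernel
  have h7 := congrArg (fun t => t ^ 40) h6
  simp only [← pow_mul] at h7
  have h8 : ∀ t : Equiv.Perm (Fin 5), t ^ (3 * 40) = 1 := by
    intro t
    have := pow_card_eq_one (G := Equiv.Perm (Fin 5)) (x := t)
    rwa [Fintype.card_perm, Fintype.card_fin] at this
  rw [h8, show 40 = 6 * 6 + 4 from rfl, pow_add, pow_mul, hc6, one_pow, one_mul] at h7
  exact hc4 h7

theorem trace_sl {F : Type*} [Field F] (h2 : (2 : F) = 0) (g h : SL(2, F)) :
    ∃ f : F, ((FreeGroup.lift ![g, h] w0 : SL(2, F)) : Matrix (Fin 2) (Fin 2) F).trace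
      = f ^ 3 + f := by
  rw [lift_w0]
  simp only [Matrix.SpecialLinearGroup.coe_mul, Matrix.SpecialLinearGroup.coe_one]
  refine trace_word h2 (B := ((h * g * h⁻¹ : SL(2, F)) : Matrix (Fin 2) (Fin 2) F))
    g.det_coe (h * g * h⁻¹).det_coe ?_ ?_
  · simp only [Matrix.SpecialLinearGroup.coe_mul]
    rw [Matrix.trace_mul_cycle, ← Matrix.SpecialLinearGroup.coe_mul, inv_mul_cancel]
    simp
  · rw [← Matrix.SpecialLinearGroup.coe_mul, mul_inv_cancel]
    simp

theorem not_surj (F : Type) [Field F] [Finite F] (h2 : (2 : F) = 0) :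
    ¬ Function.Surjective (wordMap w0 PSL(2, F)) := by
  intro hs
  have key : Function.Surjective (fun f : F => f ^ 3 + f) := by
    intro c
    let M : SL(2, F) := ⟨!![c, 1; 1, 0], by
      rw [Matrix.det_fin_two_of]
      linear_combination (-1 : F) * h2⟩
    obtain ⟨⟨g, h⟩, e⟩ := hs (QuotientGroup.mk M)
    obtain ⟨g, rfl⟩ := QuotientGroup.mk_surjective g
    obtain ⟨h, rfl⟩ := QuotientGroup.mk_surjective h
    have e1 : (QuotientGroup.mk (FreeGroup.lift ![g, h] w0) : PSL(2, F)) = QuotientGroup.mk M := by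
      rw [← e]
      simp only [wordMap]
      rw [lift_w0, lift_w0]
      rfl
    rw [QuotientGroup.eq] at e1
    obtain ⟨r, hr, hr'⟩ := Matrix.SpecialLinearGroup.mem_center_iff.1 e1
    have hr1 : r = 1 := by
      have : (r - 1) ^ 2 = 0 := by
        simp only [Fintype.card_fin] at hr
        linear_combination hr + (1 - r) * h2
      exact sub_eq_zero.1 (pow_eq_zero_iff (by norm_num) |>.1 this)
    have e2 : (FreeGroup.lift ![g, h] w0)⁻¹ * M = 1 := by
      apply Subtype.ext
      rw [← hr', hr1]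
      simp
    have e3 : FreeGroup.lift ![g, h] w0 = M := inv_mul_eq_one.1 e2
    obtain ⟨f, hf⟩ := trace_sl h2 g h
    refine ⟨f, ?_⟩
    rw [e3] at hf
    simp only [M, Matrix.trace_fin_two_of] at hf
    simp only
    rw [← hf]
    simp
  have inj := Finite.injective_iff_surjective.2 key
  have : (0 : F) = 1 := inj (by simp only; linear_combination (-1 : F) * h2)
  exact zero_ne_one this

theorem main : ∃ w : FreeGroup (Fin 2), Odd (FreeGroup.norm w) ∧ ¬ IsProperPower w ∧
    {q : ℕ | IsPrimePow q ∧ ∀ (F : Type) [Field F] [Fintype F], Fintype.card F = q →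
      ¬ Function.Surjective (wordMap w PSL(2, F))}.Infinite := by
  refine ⟨w0, by rw [norm_w0]; decide, not_power, ?_⟩
  refine Set.infinite_of_injective_forall_mem (f := fun n : ℕ => 2 ^ (n + 1)) ?_ ?_
  · intro a b hab
    have := Nat.pow_right_injective (le_refl 2) hab
    omega
  · intro n
    refine ⟨(Nat.prime_two.isPrimePow).pow (by omega), fun F _ _ hF => not_surj F ?_⟩
    have h : ((Fintype.card F : ℕ) : F) = 0 := FiniteField.cast_card_eq_zero F
    rw [hF] at h
    push_cast at h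
    exact pow_eq_zero_iff (by omega) |>.1 h

end Pool.Agent.H856Z.Word
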